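import Pool.Agent.Run7.h412.NR.Iface

/-!
# MP_0272f9_lc, piece LAB: the random labellings form a perfect family
-/

set_option autoImplicit false

namespace Pool.Agent.Run7.h324.NR

open Pool.Agent.NPC Pool.Agent.Run7.h412.NR

theorem valB_inj : ∀ (l l' : List Bool), l.length = l'.length → valB l = valB l' → l = l'
  | [], [], _, _ => rfl
  | [], b :: l', h, _ => by simp at h
  | b :: l, [], h, _ => by simp at h
  | b :: l, c :: l', h, h' => by
    simp only [valB_cons] at h'
    have hb : b = c := by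
      cases b <;> cases c <;> simp at h' ⊢ <;> omega
    subst hb
    have : valB l = valB l' := by omega
    rw [valB_inj l l' (by simpa using h) this]

/-- restricting along an injection is measure preserving -/
theorem card_comp {ι κ : Type} [Fintype ι] [Fintype κ] [DecidableEq ι] [DecidableEq κ]
    (e : ι → κ) (he : Function.Injective e) (Q : (ι → Bool) → Prop) [DecidablePred Q]
    [DecidablePred fun r : κ → Bool => Q (r ∘ e)] :
    (Finset.univ.filter (fun r : κ → Bool => Q (r ∘ e))).card * 2 ^ Fintype.card ι =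
      (Finset.univ.filter Q).card * 2 ^ Fintype.card κ := by
  classical
  let p : κ → Prop := fun x => x ∈ Set.range e
  let E1 : (κ → Bool) ≃ ({x // p x} → Bool) × ({x // ¬ p x} → Bool) :=
    Equiv.piEquivPiSubtypeProd p (fun _ => Bool)
  let E2 : ι ≃ {x // p x} := Equiv.ofInjective e he
  let E : (κ → Bool) ≃ (ι → Bool) × ({x // ¬ p x} → Bool) :=
    E1.trans ((Equiv.arrowCongr E2.symm (Equiv.refl _)).prodCongr (Equiv.refl _))
  have hE : ∀ r, (E r).1 = r ∘ e := by
    intro r
    funext i
    rfl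
  have h1 : (Finset.univ.filter (fun r : κ → Bool => Q (r ∘ e))).card =
      ((Finset.univ.filter Q) ×ˢ (Finset.univ : Finset ({x // ¬ p x} → Bool))).card := by
    apply Finset.card_equiv E
    intro r
    simp [← hE]
  have h2 : Fintype.card (κ → Bool) =
      Fintype.card (ι → Bool) * Fintype.card ({x // ¬ p x} → Bool) := by
    rw [Fintype.card_congr E, Fintype.card_prod]
  rw [h1, Finset.card_product, Finset.card_univ, mul_assoc,
    mul_comm (Fintype.card ({x // ¬ p x} → Bool))]
  rw [Fintype.card_fun, Fintype.card_fun, Fintype.card_bool] at h2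
  rw [h2]

/-- the number of functions injective on a small set -/
theorem card_inj {V L : Type} [Fintype V] [Fintype L] [DecidableEq V] [DecidableEq L]
    (S : Finset V) (h : 2 * S.card ≤ Fintype.card L + 2)
    [DecidablePred fun t : V → L => Set.InjOn t (S : Set V)] :
    Fintype.card L ^ Fintype.card V ≤
      (Finset.univ.filter (fun t : V → L => Set.InjOn t (S : Set V))).card * 2 ^ S.card := by
  classical
  let p : V → Prop := fun x => x ∈ S
  let E : (V → L) ≃ ({x // p x} → L) × ({x // ¬ p x} → L) :=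
    Equiv.piEquivPiSubtypeProd p (fun _ => L)
  have h1 : (Finset.univ.filter (fun t : V → L => Set.InjOn t (S : Set V))).card =
      ((Finset.univ.filter (fun t : {x // p x} → L => Function.Injective t)) ×ˢ
        (Finset.univ : Finset ({x // ¬ p x} → L))).card := by
    apply Finset.card_equiv E
    intro r
    simp only [Finset.mem_filter, Finset.mem_univ, true_and, Finset.mem_product, and_true]
    constructor
    · intro hr x y hxy
      exact Subtype.ext (hr x.2 y.2 hxy)
    · intro hr x hx y hy hxy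
      exact congrArg Subtype.val (@hr ⟨x, hx⟩ ⟨y, hy⟩ hxy)
  have h2 : (Finset.univ.filter (fun t : {x // p x} → L => Function.Injective t)).card =
      (Fintype.card L).descFactorial S.card := by
    have : Fintype.card ({x // p x} ↪ L) = (Fintype.card L).descFactorial S.card := by
      rw [Fintype.card_embedding_eq]
      congr 1
      exact Fintype.card_coe S
    rw [← this, ← Fintype.card_subtype]
    exact Fintype.card_congr (Equiv.subtypeInjectiveEquivEmbedding _ _)
  have h3 : Fintype.card (V → L) =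
      Fintype.card ({x // p x} → L) * Fintype.card ({x // ¬ p x} → L) := by
    rw [Fintype.card_congr E, Fintype.card_prod]
  rw [Fintype.card_fun (α := V), Fintype.card_fun (α := {x // p x})] at h3
  have h4 : Fintype.card {x // p x} = S.card := Fintype.card_coe S
  rw [h4] at h3
  rw [h1, Finset.card_product, h2, Finset.card_univ, h3]
  have h5 : Fintype.card L ^ S.card ≤ (Fintype.card L).descFactorial S.card * 2 ^ S.card := by
    calc Fintype.card L ^ S.card ≤ ((Fintype.card L + 1 - S.card) * 2) ^ S.card := by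
          apply Nat.pow_le_pow_left
          omega
      _ = (Fintype.card L + 1 - S.card) ^ S.card * 2 ^ S.card := mul_pow _ _ _
      _ ≤ _ := Nat.mul_le_mul_right _ (Nat.pow_sub_le_descFactorial _ _)
  calc _ ≤ ((Fintype.card L).descFactorial S.card * 2 ^ S.card) *
        Fintype.card ({x // ¬ p x} → L) := Nat.mul_le_mul_right _ h5
    _ = _ := by ring

/-- position of the bit `i` of the label of `v` in the labelling `ρ` -/
def pos (n P : ℕ) (h : P1 n ≤ P) (x : Fin (Hc n) × Fin n × Fin (lam n)) : Fin P :=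
  ⟨(x.1.1 * n + x.2.1.1) * lam n + x.2.2.1, by
    have h1 := x.1.2
    have h2 := x.2.1.2
    have h3 := x.2.2.2
    have h4 : x.1.1 * n + x.2.1.1 + 1 ≤ Hc n * n := by
      calc x.1.1 * n + x.2.1.1 + 1 ≤ x.1.1 * n + n := by omega
        _ = (x.1.1 + 1) * n := by ring
        _ ≤ _ := Nat.mul_le_mul_right _ h1
    have h5 : (x.1.1 * n + x.2.1.1) * lam n + lam n ≤ Hc n * n * lam n := by
      calc _ = (x.1.1 * n + x.2.1.1 + 1) * lam n := by ring
        _ ≤ _ := Nat.mul_le_mul_right _ h4
    have h6 : P1 n = Hc n * n * lam n := rfl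
    omega⟩

theorem mul_add_inj {a b c d k : ℕ} (hb : b < k) (hd : d < k) (h : a * k + b = c * k + d) :
    a = c ∧ b = d := by
  have h1 : (a * k + b) / k = (c * k + d) / k := by rw [h]
  have hk : 0 < k := by omega
  rw [mul_comm a k, mul_comm c k, Nat.mul_add_div hk, Nat.mul_add_div hk, Nat.div_eq_of_lt hb,
    Nat.div_eq_of_lt hd] at h1
  have h2 : a = c := by simpa using h1
  subst h2
  exact ⟨rfl, by omega⟩

theorem pos_inj (n P : ℕ) (h : P1 n ≤ P) : Function.Injective (pos n P h) := by
  rintro ⟨a, b, c⟩ ⟨a', b', c'⟩ hh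
  have h1 : (a.1 * n + b.1) * lam n + c.1 = (a'.1 * n + b'.1) * lam n + c'.1 := congrArg Fin.val hh
  obtain ⟨h2, h3⟩ := mul_add_inj c.2 c'.2 h1
  obtain ⟨h4, h5⟩ := mul_add_inj b.2 b'.2 h2
  rw [Prod.mk.injEq, Prod.mk.injEq]
  exact ⟨Fin.ext h4, Fin.ext h5, Fin.ext h3⟩

theorem blk_eq (n P : ℕ) (h : P1 n ≤ P) (r : Fin P → Bool) (ρ : Fin (Hc n)) (v : Fin n) :
    blk (List.ofFn r) ((ρ.1 * n + v.1) * lam n) (lam n) =
      valB (List.ofFn fun i : Fin (lam n) => r (pos n P h (ρ, v, i))) := by
  unfold blk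
  congr 1
  apply List.ext_getElem
  · simp
  intro i h1 h2
  simp only [List.length_ofFn] at h2
  simp only [List.getElem_map, List.getElem_range, List.getElem_ofFn]
  have h3 : (ρ.1 * n + v.1) * lam n + i < P := (pos n P h (ρ, v, ⟨i, h2⟩)).2
  rw [List.getD_eq_getElem _ _ (by simpa using h3), List.getElem_ofFn]
  rfl

theorem pow_T (n : ℕ) (hn : 1 ≤ n) : 4 ^ T n * jj n ≤ Hc n := by
  have h1 : 2 ^ n.size ≤ 2 * n := by
    have h2 : 0 < n.size := Nat.size_pos.2 hn
    have h3 : 2 ^ (n.size - 1) ≤ n := by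
      have : n.size - 1 < n.size := by omega
      exact Nat.lt_size.1 this
    calc 2 ^ n.size = 2 ^ (n.size - 1 + 1) := by rw [Nat.sub_add_cancel h2]
      _ = 2 * 2 ^ (n.size - 1) := by ring
      _ ≤ 2 * n := Nat.mul_le_mul_left _ h3
  unfold Hc
  apply Nat.mul_le_mul_right
  unfold h412.NR.T
  calc 4 ^ (n.size + 1) = 4 * (2 ^ n.size * 2 ^ n.size) := by
        rw [pow_succ, ← mul_pow]; ring
    _ ≤ 4 * (2 * n * (2 * n)) := Nat.mul_le_mul_left _ (Nat.mul_le_mul h1 h1)
    _ = 16 * (n * n) := by ring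

theorem pow_jj (n : ℕ) : (n + 1) ^ (2 * T n) * (3 * n) ≤ 2 ^ jj n := by
  have h1 : n + 1 ≤ 2 ^ n.size := Nat.lt_size_self n
  calc (n + 1) ^ (2 * T n) * (3 * n) ≤ (2 ^ n.size) ^ (2 * T n) * (4 * 2 ^ n.size) := by
        apply Nat.mul_le_mul (Nat.pow_le_pow_left h1 _)
        omega
    _ = 2 ^ (n.size * (2 * T n) + (n.size + 2)) := by
        rw [pow_add, pow_mul, pow_add]; ring
    _ ≤ 2 ^ jj n := by
        apply Nat.pow_le_pow_right (by norm_num)
        unfold jj h412.NR.T
        nlinarith

theorem half_pow (m k : ℕ) (hm : 1 ≤ m) :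
    ((1 : ℝ) - 1 / (m : ℝ)) ^ (m * k) ≤ (1 / 2) ^ k := by
  rw [pow_mul]
  have hm' : (0 : ℝ) < m := by exact_mod_cast hm
  have h0 : (0 : ℝ) ≤ 1 - 1 / (m : ℝ) := by
    rw [sub_nonneg, div_le_one hm']
    exact_mod_cast hm
  apply pow_le_pow_left₀ (pow_nonneg h0 _)
  have h1 : (1 : ℝ) - 1 / (m : ℝ) ≤ Real.exp (-(1 / (m : ℝ))) := by
    have := Real.add_one_le_exp (-(1 / (m : ℝ)))
    linarith
  calc ((1 : ℝ) - 1 / (m : ℝ)) ^ m ≤ (Real.exp (-(1 / (m : ℝ)))) ^ m :=
        pow_le_pow_left₀ h0 h1 _
    _ = Real.exp (-1) := by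
        rw [← Real.exp_nat_mul]
        congr 1
        field_simp
    _ ≤ 1 / 2 := by
        rw [Real.exp_neg, inv_eq_one_div]
        apply one_div_le_one_div_of_le (by norm_num)
        have := Real.add_one_le_exp (1 : ℝ)
        linarith

open Classical in
/-- the sequences of bits for which a fixed small set is never injectively labelled -/
theorem bad_set (n P : ℕ) (h : P1 n ≤ P) (S : Finset (Fin n)) (hS : S.card ≤ 2 * T n) :
    ((Finset.univ.filter (fun r : Fin P → Bool => ∀ ρ : Fin (Hc n),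
      ¬ Set.InjOn (fun v : Fin n => blk (List.ofFn r) ((ρ.1 * n + v.1) * lam n) (lam n))
        (S : Set (Fin n)))).card : ℝ) ≤ 2 ^ P * (1 - 1 / 4 ^ T n) ^ Hc n := by
  let L := Fin (lam n) → Bool
  let bad : Finset (Fin n → L) := Finset.univ.filter fun t => ¬ Set.InjOn t (S : Set (Fin n))
  let Q : (Fin (Hc n) × Fin n × Fin (lam n) → Bool) → Prop := fun σ =>
    ∀ ρ, ¬ Set.InjOn (fun v i => σ (ρ, v, i)) (S : Set (Fin n))
  have h1 : (Finset.univ.filter (fun r : Fin P → Bool => ∀ ρ : Fin (Hc n),
      ¬ Set.InjOn (fun v : Fin n => blk (List.ofFn r) ((ρ.1 * n + v.1) * lam n) (lam n))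
        (S : Set (Fin n)))) = (Finset.univ.filter (fun r : Fin P → Bool => Q (r ∘ pos n P h))) := by
    apply Finset.filter_congr
    intro r _
    apply forall_congr'
    intro ρ
    apply not_congr
    have h2 : ∀ x y : Fin n,
        (blk (List.ofFn r) ((ρ.1 * n + x.1) * lam n) (lam n) =
          blk (List.ofFn r) ((ρ.1 * n + y.1) * lam n) (lam n)) ↔
        (fun i => (r ∘ pos n P h) (ρ, x, i)) = (fun i => (r ∘ pos n P h) (ρ, y, i)) := by
      intro x y
      rw [blk_eq n P h, blk_eq n P h]
      constructor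
      · intro hh
        have := valB_inj _ _ (by simp) hh
        exact List.ofFn_injective this
      · intro hh
        have : (fun i => r (pos n P h (ρ, x, i))) = (fun i => r (pos n P h (ρ, y, i))) := hh
        rw [this]
    constructor
    · intro hi x hx y hy hxy
      exact hi hx hy ((h2 x y).2 hxy)
    · intro hi x hx y hy hxy
      exact hi hx hy ((h2 x y).1 hxy)
  have h2 := card_comp (pos n P h) (pos_inj n P h) Q
  rw [← h1] at h2
  have h3 : (Finset.univ.filter Q).card = bad.card ^ Hc n := by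
    have : (Fintype.piFinset fun _ : Fin (Hc n) => bad).card = bad.card ^ Hc n := by
      rw [Fintype.card_piFinset_const]
    rw [← this]
    let E : (Fin (Hc n) × Fin n × Fin (lam n) → Bool) ≃ (Fin (Hc n) → Fin n → L) :=
      (Equiv.curry _ _ _).trans (Equiv.piCongrRight fun _ => Equiv.curry _ _ _)
    apply Finset.card_equiv E
    intro σ
    simp only [Finset.mem_filter, Finset.mem_univ, true_and, Fintype.mem_piFinset, Q, bad]
    rfl
  have h4 : Fintype.card L = 2 ^ lam n := by
    simp [L]
  have h5 : 4 * T n < 2 ^ lam n := Nat.lt_size_self _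
  have h6 := card_inj (V := Fin n) (L := L) S (by rw [h4]; omega)
  have h7 : (Finset.univ.filter (fun t : Fin n → L => Set.InjOn t (S : Set (Fin n)))).card +
      bad.card = Fintype.card L ^ n := by
    have := Finset.card_filter_add_card_filter_not (s := (Finset.univ : Finset (Fin n → L)))
      (fun t => Set.InjOn t (S : Set (Fin n)))
    rw [this, Finset.card_univ, Fintype.card_fun, Fintype.card_fin]
  set K : ℝ := (Fintype.card L : ℝ) ^ n with hK
  have hK0 : 0 < K := by
    rw [hK, h4]
    positivity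
  have h8 : (bad.card : ℝ) ≤ K * (1 - 1 / 4 ^ T n) := by
    set g := (Finset.univ.filter (fun t : Fin n → L => Set.InjOn t (S : Set (Fin n)))).card
      with hg
    have h9 : K ≤ (g : ℝ) * 4 ^ T n := by
      have h10 : (Fintype.card L) ^ n ≤ g * 4 ^ T n := by
        rw [Fintype.card_fin] at h6
        refine le_trans h6 (Nat.mul_le_mul_left _ ?_)
        calc 2 ^ S.card ≤ 2 ^ (2 * T n) := Nat.pow_le_pow_right (by norm_num) hS
          _ = 4 ^ T n := by rw [pow_mul]; norm_num
      rw [hK]
      exact_mod_cast h10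
    have h11 : (g : ℝ) + bad.card = K := by
      rw [hK]
      exact_mod_cast h7
    have h12 : K / 4 ^ T n ≤ g := by
      rw [div_le_iff₀ (by positivity)]
      exact h9
    have : K * (1 - 1 / 4 ^ T n) = K - K / 4 ^ T n := by ring
    rw [this]
    linarith
  have h9 : ((Finset.univ.filter Q).card : ℝ) ≤ K ^ Hc n * (1 - 1 / 4 ^ T n) ^ Hc n := by
    rw [h3, Nat.cast_pow, ← mul_pow]
    exact pow_le_pow_left₀ (by positivity) h8 _
  have h10 : (2 : ℝ) ^ Fintype.card (Fin (Hc n) × Fin n × Fin (lam n)) = K ^ Hc n := by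
    rw [hK, h4]
    simp only [Fintype.card_prod, Fintype.card_fin]
    push_cast
    rw [← pow_mul, ← pow_mul]
    congr 1
    ring
  have h11 : ((Finset.univ.filter (fun r : Fin P → Bool => ∀ ρ : Fin (Hc n),
      ¬ Set.InjOn (fun v : Fin n => blk (List.ofFn r) ((ρ.1 * n + v.1) * lam n) (lam n))
        (S : Set (Fin n)))).card : ℝ) * K ^ Hc n = ((Finset.univ.filter Q).card : ℝ) * 2 ^ P := by
    rw [← h10]
    rw [Fintype.card_fin] at h2
    exact_mod_cast h2
  have h12 : 0 < K ^ Hc n := pow_pos hK0 _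
  have h13 : (0 : ℝ) ≤ 2 ^ P := by positivity
  refine le_of_mul_le_mul_right ?_ h12
  rw [h11]
  calc _ ≤ K ^ Hc n * (1 - 1 / 4 ^ T n) ^ Hc n * 2 ^ P := mul_le_mul_of_nonneg_right h9 h13
    _ = _ := by ring

theorem main_LAB : S_LAB := by
  classical
  intro n P hn hP
  -- the union bound
  let Sg : (Fin (2 * T n) → Option (Fin n)) → Finset (Fin n) := fun g =>
    Finset.univ.filter fun v => ∃ i, g i = some v
  have hSg : ∀ g, (Sg g).card ≤ 2 * T n := by
    intro g
    have h1 : (Sg g).image some ⊆ Finset.univ.image g := by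
      intro x hx
      rw [Finset.mem_image] at hx
      obtain ⟨v, hv, rfl⟩ := hx
      simp only [Sg, Finset.mem_filter, Finset.mem_univ, true_and] at hv
      obtain ⟨i, hi⟩ := hv
      exact Finset.mem_image.2 ⟨i, Finset.mem_univ _, hi⟩
    calc (Sg g).card = ((Sg g).image some).card :=
          (Finset.card_image_of_injective _ (Option.some_injective _)).symm
      _ ≤ (Finset.univ.image g).card := Finset.card_le_card h1
      _ ≤ (Finset.univ : Finset (Fin (2 * T n))).card := Finset.card_image_le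
      _ = 2 * T n := by simp
  let B : (Fin (2 * T n) → Option (Fin n)) → Finset (Fin P → Bool) := fun g =>
    Finset.univ.filter (fun r : Fin P → Bool => ∀ ρ : Fin (Hc n),
      ¬ Set.InjOn (fun v : Fin n => blk (List.ofFn r) ((ρ.1 * n + v.1) * lam n) (lam n))
        (Sg g : Set (Fin n)))
  have hsub : (Finset.univ.filter (fun r : Fin P → Bool => ¬ Perfect n (fun ρ v =>
      blk (List.ofFn r) ((ρ * n + v.1) * lam n) (lam n)))) ⊆ Finset.univ.biUnion B := by
    intro r hr
    simp only [Finset.mem_filter, Finset.mem_univ, true_and] at hr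
    unfold h412.NR.Perfect at hr
    push Not at hr
    obtain ⟨L, hL, hlen, hL'⟩ := hr
    rw [Finset.mem_biUnion]
    refine ⟨fun i => L[i.1]?, Finset.mem_univ _, ?_⟩
    simp only [B, Finset.mem_filter, Finset.mem_univ, true_and]
    intro ρ hinj
    apply hL' ρ.1 ρ.2
    rw [List.nodup_map_iff_inj_on hL]
    intro x hx y hy hxy
    have hmem : ∀ z ∈ L, z ∈ (Sg fun i => L[i.1]?) := by
      intro z hz
      obtain ⟨i, hi, rfl⟩ := List.getElem_of_mem hz
      simp only [Sg, Finset.mem_filter, Finset.mem_univ, true_and]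
      exact ⟨⟨i, by omega⟩, by simp [hi]⟩
    exact hinj (hmem x hx) (hmem y hy) hxy
  have hcard : ((Finset.univ.filter (fun r : Fin P → Bool => ¬ Perfect n (fun ρ v =>
      blk (List.ofFn r) ((ρ * n + v.1) * lam n) (lam n)))).card : ℝ) ≤
      ((n : ℝ) + 1) ^ (2 * T n) * (2 ^ P * (1 - 1 / 4 ^ T n) ^ Hc n) := by
    calc _ ≤ ((Finset.univ.biUnion B).card : ℝ) := by
          exact_mod_cast Finset.card_le_card hsub
      _ ≤ ((∑ g, (B g).card : ℕ) : ℝ) := by exact_mod_cast Finset.card_biUnion_le
      _ = ∑ g, ((B g).card : ℝ) := by push_cast; rfl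
      _ ≤ ∑ g : (Fin (2 * T n) → Option (Fin n)), (2 : ℝ) ^ P * (1 - 1 / 4 ^ T n) ^ Hc n :=
          Finset.sum_le_sum fun g _ => bad_set n P hP (Sg g) (hSg g)
      _ = _ := by
          rw [Finset.sum_const, Finset.card_univ, nsmul_eq_mul]
          simp
  have h4 : (1 : ℕ) ≤ 4 ^ T n := Nat.one_le_pow _ _ (by norm_num)
  have h5 : ((1 : ℝ) - 1 / 4 ^ T n) ^ Hc n ≤ (1 / 2) ^ jj n := by
    have h6 := half_pow (4 ^ T n) (jj n) h4
    push_cast at h6
    refine le_trans ?_ h6
    apply pow_le_pow_of_le_one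
    · rw [sub_nonneg, div_le_one (by positivity)]
      exact_mod_cast h4
    · have : (0 : ℝ) < 1 / 4 ^ T n := by positivity
      linarith
    · exact pow_T n hn
  have h6 : ((n : ℝ) + 1) ^ (2 * T n) * (3 * n) ≤ 2 ^ jj n := by exact_mod_cast pow_jj n
  have h7 : ((Finset.univ.filter (fun r : Fin P → Bool => ¬ Perfect n (fun ρ v =>
      blk (List.ofFn r) ((ρ * n + v.1) * lam n) (lam n)))).card : ℝ) * (3 * n) ≤ 2 ^ P := by
    calc _ ≤ ((n : ℝ) + 1) ^ (2 * T n) * (2 ^ P * (1 / 2) ^ jj n) * (3 * n) := by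
          apply mul_le_mul_of_nonneg_right _ (by positivity)
          refine le_trans hcard ?_
          apply mul_le_mul_of_nonneg_left _ (by positivity)
          exact mul_le_mul_of_nonneg_left h5 (by positivity)
      _ = (((n : ℝ) + 1) ^ (2 * T n) * (3 * n)) * (1 / 2) ^ jj n * 2 ^ P := by ring
      _ ≤ 2 ^ jj n * (1 / 2) ^ jj n * 2 ^ P := by
          apply mul_le_mul_of_nonneg_right _ (by positivity)
          exact mul_le_mul_of_nonneg_right h6 (by positivity)
      _ = 2 ^ P := by
          rw [← mul_pow]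
          norm_num
  convert (show (Finset.univ.filter (fun r : Fin P → Bool => ¬ Perfect n (fun ρ v =>
      blk (List.ofFn r) ((ρ * n + v.1) * lam n) (lam n)))).card * (3 * n) ≤ 2 ^ P by
        exact_mod_cast h7) using 4

end Pool.Agent.Run7.h324.NR
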